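import Pool.Agent.H45.Nev.Stmts
import Pool.Agent.H45.Nev.Disc
import Pool.Agent.H45.Nev.PlaneEst
import Pool.Agent.H60.Nev.Diss
import Pool.Agent.H51.Nev.Graph

/-!
# The ratio ergodic theorem
-/

set_option linter.unusedSectionVars false

open MeasureTheory Set Metric Filter Topology ProbabilityTheory
open scoped ContDiff ENNReal

namespace Pool.Agent.H11.Nev

open Pool.Agent.H45.Nev

variable {M : Type*} [TopologicalSpace M] [MeasurableSpace M] [BorelSpace M]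
  {Y : Type*} [NormedAddCommGroup Y] [NormedSpace ℝ Y] {Λ : Lam M Y} {φ : ℂ → M} {σ : ℂ → ℝ}
  {μ : Measure M}

open Classical in
/-- measurable versions -/
lemma exists_meas_disc (hd : Λ.IsDisc φ σ) : ∃ (φ' : ℂ → M) (σ' : ℂ → ℝ), Measurable φ' ∧
    Measurable σ' ∧ EqOn φ' φ (ball 0 1) ∧ EqOn σ' σ (ball 0 1) := by
  set φ' : ℂ → M := fun ξ => if ξ ∈ ball (0 : ℂ) 1 then φ ξ else φ 0 with hφ'
  set σ' : ℂ → ℝ := fun ξ => if ξ ∈ ball (0 : ℂ) 1 then σ ξ else 0 with hσ'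
  have hφe : EqOn φ' φ (ball 0 1) := fun ξ hξ => by simp only [hφ']; rw [if_pos hξ]
  have hσe : EqOn σ' σ (ball 0 1) := fun ξ hξ => by simp only [hσ']; rw [if_pos hξ]
  have hφm : Measurable φ' := by
    have : φ' = (ball (0 : ℂ) 1).piecewise φ (fun _ => φ 0) := by
      ext ξ; simp only [hφ', piecewise]
    rw [this]
    exact hd.continuousOn.measurable_piecewise continuousOn_const measurableSet_ball
  have hσm : Measurable σ' := by
    have : σ' = (ball (0 : ℂ) 1).piecewise σ (fun _ => 0) := by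
      ext ξ; simp only [hσ', piecewise]
    rw [this]
    exact hd.continuousOn_σ.measurable_piecewise continuousOn_const measurableSet_ball
  exact ⟨φ', σ', hφm, hσm, hφe, hσe⟩

/-- integrability of bounded functions against the kernel -/
lemma disc_kernel_integrable (hd : Λ.IsDisc φ σ) {F : M → ℝ} (hF : Measurable F) {K : ℝ}
    (hK : ∀ x, |F x| ≤ K) {s : ℝ} (hs1 : s < 1) :
    IntegrableOn (fun ξ => Real.log (s / ‖ξ‖) * (σ ξ * F (φ ξ))) (ball (0 : ℂ) s) ∧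
      nev (fun ξ => σ ξ * F (φ ξ)) s =
        ∫ ξ in ball (0 : ℂ) s, Real.log (s / ‖ξ‖) * (σ ξ * F (φ ξ)) := by
  obtain ⟨φ', σ', hφm, hσm, hφe, hσe⟩ := exists_meas_disc hd
  obtain ⟨C, hC0, hC⟩ := hd.σ_bdd hs1
  have hm : Measurable (fun ξ => σ' ξ * F (φ' ξ)) := hσm.mul (hF.comp hφm)
  have hsub : ball (0 : ℂ) s ⊆ ball 0 1 := ball_subset_ball hs1.le
  have h1 : IntegrableOn (fun ξ : ℂ => Real.log (s / ‖ξ‖) * (σ' ξ * F (φ' ξ))) (ball 0 s) := by
    apply kernel_integrable_bdd hs1 hm (K := C * K)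
    filter_upwards [ae_restrict_mem measurableSet_ball] with ξ hξ
    rw [hσe (hsub hξ), abs_mul, abs_of_nonneg (hd.σ_pos (hsub hξ)).le]
    exact mul_le_mul (hC ξ hξ) (hK _) (abs_nonneg _) hC0.le
  have h2 := (nev_eq_kernel _ hm s (by
    have h2 := h1.2
    unfold HasFiniteIntegral at h2
    refine lt_of_le_of_lt (le_of_eq ?_) h2
    apply setLIntegral_congr_fun measurableSet_ball
    intro ξ hξ
    simp only [enorm_mul]
    rw [Real.enorm_eq_ofReal (kernel_nonneg hξ)])).2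
  have heq : EqOn (fun ξ => Real.log (s / ‖ξ‖) * (σ' ξ * F (φ' ξ)))
      (fun ξ => Real.log (s / ‖ξ‖) * (σ ξ * F (φ ξ))) (ball (0 : ℂ) s) := by
    intro ξ hξ
    simp only [hφe (hsub hξ), hσe (hsub hξ)]
  refine ⟨h1.congr_fun heq measurableSet_ball, ?_⟩
  rw [← setIntegral_congr_fun measurableSet_ball heq, ← h2]
  unfold nev
  apply setIntegral_congr_fun measurableSet_Ioo
  intro t ht
  simp only
  congr 1
  apply setIntegral_congr_fun measurableSet_ball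
  intro ξ hξ
  have hξ' : ξ ∈ ball (0 : ℂ) 1 := ball_subset_ball (ht.2.trans hs1).le hξ
  simp only [hφe hξ', hσe hξ']

/-- bound for the kernel integral of `L u` -/
lemma disc_L_bound (TS : TestSys Λ μ) (hd : Λ.IsDisc φ σ) {u : M → ℝ} (hu : u ∈ TS.D) {C : ℝ}
    (hC : ∀ x, |u x| ≤ C) {s : ℝ} (hs0 : 0 < s) (hs1 : s < 1) :
    |∫ ξ in ball (0 : ℂ) s, Real.log (s / ‖ξ‖) * (σ ξ * TS.L u (φ ξ))| ≤
      4 * Real.pi * C := by
  obtain ⟨K, hK⟩ := TS.L_bdd u hu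
  have h1 := disc_jensen TS hd hu hs0 hs1
  rw [(disc_kernel_integrable hd (TS.L_meas u hu) hK hs1).2] at h1
  have hpi := Real.pi_pos
  have h2 : ∫ ξ in ball (0 : ℂ) s, Real.log (s / ‖ξ‖) * (σ ξ * TS.L u (φ ξ)) =
      2 * Real.pi * (Real.circleAverage (u ∘ φ) 0 s - u (φ 0)) := by
    rw [h1]; field_simp
  have h3 : |Real.circleAverage (u ∘ φ) 0 s| ≤ C := by
    refine Real.abs_circleAverage_le_circleAverage_abs.trans ?_
    have hsph : sphere (0 : ℂ) |s| ⊆ ball 0 1 := by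
      intro ξ hξ
      rw [mem_sphere, abs_of_pos hs0] at hξ
      rw [mem_ball, hξ]; exact hs1
    have hci : CircleIntegrable (|u ∘ φ|) 0 s := by
      apply ContinuousOn.circleIntegrable'
      have : ContinuousOn (u ∘ φ) (sphere (0 : ℂ) |s|) :=
        (TS.cont u hu).comp_continuousOn (hd.continuousOn.mono hsph)
      exact this.abs
    apply Real.circleAverage_mono_on_of_le_circle hci
    intro x _
    exact hC _
  rw [h2, abs_mul, abs_of_pos (by positivity : (0:ℝ) < 2 * Real.pi)]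
  have h4 : |Real.circleAverage (u ∘ φ) 0 s - u (φ 0)| ≤ 2 * C := by
    have := abs_sub (Real.circleAverage (u ∘ φ) 0 s) (u (φ 0))
    have := hC (φ 0)
    linarith
  calc 2 * Real.pi * |Real.circleAverage (u ∘ φ) 0 s - u (φ 0)| ≤ 2 * Real.pi * (2 * C) := by
        gcongr
    _ = _ := by ring

/-- The maximal inequality along a summable sequence. -/
lemma max_seq [IsFiniteMeasure μ] (hmax : MaxStmt Λ μ) (g : ℕ → M → ℝ)
    (hg : ∀ k, Measurable (g k)) (hb : ∀ k, ∃ B, ∀ x, |g k x| ≤ B) (h0 : ∀ k x, 0 ≤ g k x)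
    (hint : ∀ k, ∫ x, g k x ∂μ ≤ (1 / 4) ^ k) :
    ∀ᵐ a ∂μ, ∀ᶠ k in atTop, ∀ (φ : ℂ → M) (σ : ℂ → ℝ), Λ.IsDisc φ σ → φ 0 = a →
      ∀ s ∈ Ioo (0 : ℝ) 1, ∫ ξ in ball (0 : ℂ) s, Real.log (s / ‖ξ‖) * (σ ξ * g k (φ ξ)) ≤
        (1 / 2) ^ k * ∫ ξ in ball (0 : ℂ) s, Real.log (s / ‖ξ‖) * σ ξ := by
  have hgi : ∀ k, Integrable (g k) μ := fun k => by
    obtain ⟨B, hB⟩ := hb k
    exact Integrable.of_bound (hg k).aestronglyMeasurable B (Eventually.of_forall hB)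
  have hA : ∀ k, ∃ A : Set M, MeasurableSet A ∧ μ A ≤ ENNReal.ofReal ((1 / 2) ^ k) ∧
      ∀ᵐ a ∂μ, a ∉ A → ∀ (φ : ℂ → M) (σ : ℂ → ℝ), Λ.IsDisc φ σ → φ 0 = a →
        ∀ s ∈ Ioo (0 : ℝ) 1,
          ∫ ξ in ball (0 : ℂ) s, Real.log (s / ‖ξ‖) * (σ ξ * (g k (φ ξ) - (1 / 2) ^ k)) ≤ 0 := by
    intro k
    obtain ⟨B, hB⟩ := hb k
    have h2k : (0 : ℝ) < (1 / 2) ^ k := by positivity
    obtain ⟨A, hAm, hA1, hA2⟩ := hmax (fun x => g k x - (1 / 2) ^ k)
      ((hg k).sub measurable_const) ⟨B + (1 / 2) ^ k, fun x => by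
        refine (abs_sub _ _).trans ?_
        rw [abs_of_pos h2k]
        linarith [hB x]⟩
    refine ⟨A, hAm, ?_, hA2⟩
    rw [integral_sub (hgi k).integrableOn (integrable_const _).integrableOn,
      setIntegral_const, smul_eq_mul] at hA1
    have h1 : ∫ x in A, g k x ∂μ ≤ ∫ x, g k x ∂μ :=
      setIntegral_le_integral (hgi k) (Eventually.of_forall (h0 k))
    have h2 : μ.real A * (1 / 2) ^ k ≤ (1 / 2) ^ k * (1 / 2) ^ k := by
      have : ((1 : ℝ) / 2) ^ k * (1 / 2) ^ k = (1 / 4) ^ k := by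
        rw [← mul_pow]; norm_num
      rw [this]
      linarith [hint k]
    have h3 : μ.real A ≤ (1 / 2) ^ k := le_of_mul_le_mul_right h2 h2k
    rw [← ofReal_measureReal]
    exact ENNReal.ofReal_le_ofReal h3
  choose A hAm hAμ hAae using hA
  have hsum : ∑' k, μ (A k) ≠ ⊤ := by
    have h1 : ∑' k : ℕ, ENNReal.ofReal ((1 / 2) ^ k) ≠ ⊤ := by
      rw [← ENNReal.ofReal_tsum_of_nonneg (fun k => by positivity)
        (summable_geometric_of_lt_one (by norm_num) (by norm_num))]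
      exact ENNReal.ofReal_ne_top
    exact ne_top_of_le_ne_top h1 (ENNReal.tsum_le_tsum hAμ)
  filter_upwards [ae_eventually_notMem hsum, ae_all_iff.2 hAae] with a ha1 ha2
  filter_upwards [ha1] with k hk φ σ hd hφ s hs
  have h1 := ha2 k hk φ σ hd hφ s hs
  obtain ⟨B, hB⟩ := hb k
  have hi1 := (disc_kernel_integrable hd (hg k) hB hs.2).1
  have hi2 := (disc_kernel_integrable hd (F := fun _ => (1 : ℝ)) measurable_const (K := 1)
    (fun x => by simp) hs.2).1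
  simp only [mul_one] at hi2
  have h2 : ∫ ξ in ball (0 : ℂ) s, Real.log (s / ‖ξ‖) * (σ ξ * (g k (φ ξ) - (1 / 2) ^ k)) =
      (∫ ξ in ball (0 : ℂ) s, Real.log (s / ‖ξ‖) * (σ ξ * g k (φ ξ))) -
        (1 / 2) ^ k * ∫ ξ in ball (0 : ℂ) s, Real.log (s / ‖ξ‖) * σ ξ := by
    rw [← integral_const_mul, ← integral_sub hi1 (hi2.const_mul _)]
    congr 1
    ext ξ
    ring
  rw [h2] at h1
  linarith

/-- The ratio ergodic theorem. -/
theorem ratio_ergodic (Λ : Lam M Y) (μ : Measure M) [IsFiniteMeasure μ] (hμ0 : μ ≠ 0)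
    (TS : TestSys Λ μ) (hmax : MaxStmt Λ μ) (hinf : InfStmt Λ μ)
    (herg : ∀ γ : M → ℝ, Measurable γ → (∃ C, ∀ x, |γ x| ≤ C) →
      (∀ u ∈ TS.D, ∫ x, γ x * TS.L u x ∂μ = 0) → ∃ c : ℝ, γ =ᵐ[μ] fun _ => c)
    (f : M → ℝ) (hf : Measurable f) (hB : ∃ B, ∀ x, |f x| ≤ B) :
    ∀ᵐ a ∂μ, ∀ (φ : ℂ → M) (σ : ℂ → ℝ), Λ.IsUniv φ σ → φ 0 = a →
      Tendsto (fun s : ℝ => (∫ ξ in ball (0 : ℂ) s, Real.log (s / ‖ξ‖) * (σ ξ * f (φ ξ))) /
        ∫ ξ in ball (0 : ℂ) s, Real.log (s / ‖ξ‖) * σ ξ) (𝓝[<] 1)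
        (𝓝 ((∫ x, f x ∂μ) / μ.real univ)) := by
  obtain ⟨B, hB⟩ := hB
  have hfi : Integrable f μ :=
    Integrable.of_bound hf.aestronglyMeasurable B (Eventually.of_forall hB)
  have hμ1 : 0 < μ.real univ := by
    rw [measureReal_def]
    exact ENNReal.toReal_pos (by simpa using hμ0) (measure_ne_top _ _)
  set c := (∫ x, f x ∂μ) / μ.real univ with hc
  set f0 : M → ℝ := fun x => f x - c with hf0
  have hf0m : Measurable f0 := hf.sub measurable_const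
  have hf0b : ∀ x, |f0 x| ≤ B + |c| := fun x => (abs_sub _ _).trans (by linarith [hB x])
  have hf0i : ∫ x, f0 x ∂μ = 0 := by
    rw [hf0, integral_sub hfi (integrable_const _), integral_const, smul_eq_mul, hc,
      mul_div_cancel₀ _ hμ1.ne', sub_self]
  set G : Set ((M → ℝ) × (M → ℝ)) := {p | ∃ u ∈ TS.D, p = (u, TS.L u)} with hG
  have hk : ∀ k : ℕ, ∃ p ∈ G, ∫ x, |f0 x - p.2 x| ∂μ ≤ (1 / 4) ^ k := by
    intro k
    refine Pool.Agent.H51.Nev.fa_ergodic μ G ⟨_, _, TS.one_mem, rfl⟩ ?_ ?_ ?_ ?_ ?_ f0 hf0m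
      ⟨_, hf0b⟩ hf0i _ (by positivity)
    · rintro p ⟨a, ha, rfl⟩ q ⟨b, hb, rfl⟩ c
      refine ⟨fun x => a x + c * b x, TS.lin a ha b hb c, ?_⟩
      ext x
      · simp
      · simp [Pool.Agent.H60.Nev.L_add_mul TS ha hb c x]
    · rintro p ⟨a, ha, rfl⟩
      exact ⟨(TS.cont a ha).measurable, TS.L_meas a ha⟩
    · rintro p ⟨a, ha, rfl⟩
      obtain ⟨C1, h1⟩ := TS.bdd a ha
      obtain ⟨C2, h2⟩ := TS.L_bdd a ha
      exact ⟨max C1 C2, fun x => ⟨(h1 x).trans (le_max_left _ _),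
        (h2 x).trans (le_max_right _ _)⟩⟩
    · rintro p ⟨a, ha, rfl⟩
      exact TS.integral_L a ha
    · intro γ hγ hγb h
      exact herg γ hγ hγb fun v hv => h _ ⟨v, hv, rfl⟩
  choose p hpG hp using hk
  choose u hu hpu using hpG
  have hp2 : ∀ k, (p k).2 = TS.L (u k) := fun k => by rw [hpu k]
  simp only [hp2] at hp
  have hLm : ∀ k, Measurable (TS.L (u k)) := fun k => TS.L_meas _ (hu k)
  have hseq := max_seq (Λ := Λ) (μ := μ) hmax (fun k x => |f0 x - TS.L (u k) x|)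
    (fun k => (continuous_abs.measurable).comp (hf0m.sub (hLm k)))
    (fun k => by
      obtain ⟨C, hC⟩ := TS.L_bdd _ (hu k)
      refine ⟨B + |c| + C, fun x => ?_⟩
      rw [abs_abs]
      exact (abs_sub _ _).trans (add_le_add (hf0b x) (hC x)))
    (fun k x => abs_nonneg _) hp
  filter_upwards [hseq, hinf] with a ha1 ha2 φ σ hU hφ
  have hd : Λ.IsDisc φ σ := hU.toIsDisc
  have hN := ha2 φ σ hU hφ
  set N : ℝ → ℝ := fun s => ∫ ξ in ball (0 : ℂ) s, Real.log (s / ‖ξ‖) * σ ξ with hNdef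
  have hnear : ∀ᶠ s : ℝ in 𝓝[<] 1, s ∈ Ioo (0 : ℝ) 1 := Ioo_mem_nhdsLT (by norm_num)
  rw [Metric.tendsto_nhds]
  intro ε hε
  have hpow : Tendsto (fun k : ℕ => ((1 : ℝ) / 2) ^ k) atTop (𝓝 0) :=
    tendsto_pow_atTop_nhds_zero_of_lt_one (by norm_num) (by norm_num)
  obtain ⟨k, hk1, hk2⟩ := (ha1.and (hpow.eventually (gt_mem_nhds (half_pos hε)))).exists
  obtain ⟨C', hC'⟩ := TS.bdd _ (hu k)
  have hC'0 : 0 ≤ C' := (abs_nonneg _).trans (hC' a)
  have hNbig : ∀ᶠ s : ℝ in 𝓝[<] 1, 8 * Real.pi * C' / ε + 1 ≤ N s :=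
    hN.eventually_ge_atTop _
  filter_upwards [hnear, hNbig] with s hs hNs
  have hpi := Real.pi_pos
  have hN0 : 0 < N s := by
    have : 0 ≤ 8 * Real.pi * C' / ε := by positivity
    linarith
  obtain ⟨CL, hCL⟩ := TS.L_bdd _ (hu k)
  -- the three integrals
  have hiF := (disc_kernel_integrable hd hf hB hs.2).1
  have hi1 := (disc_kernel_integrable hd (F := fun _ => (1 : ℝ)) measurable_const (K := 1)
    (fun x => by simp) hs.2).1
  simp only [mul_one] at hi1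
  have hiL := (disc_kernel_integrable hd (hLm k) hCL hs.2).1
  have hiD := (disc_kernel_integrable hd (hf0m.sub (hLm k)) (K := B + |c| + CL)
    (fun x => (abs_sub _ _).trans (add_le_add (hf0b x) (hCL x))) hs.2).1
  have hdec : ∫ ξ in ball (0 : ℂ) s, Real.log (s / ‖ξ‖) * (σ ξ * f (φ ξ)) =
      (∫ ξ in ball (0 : ℂ) s, Real.log (s / ‖ξ‖) * (σ ξ * (f0 - TS.L (u k)) (φ ξ))) +
        (∫ ξ in ball (0 : ℂ) s, Real.log (s / ‖ξ‖) * (σ ξ * TS.L (u k) (φ ξ))) + c * N s := by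
    rw [hNdef]
    simp only
    have hDL : IntegrableOn (fun ξ => Real.log (s / ‖ξ‖) * (σ ξ * (f0 - TS.L (u k)) (φ ξ)) +
        Real.log (s / ‖ξ‖) * (σ ξ * TS.L (u k) (φ ξ))) (ball 0 s) := hiD.add hiL
    rw [← integral_const_mul, ← integral_add hiD hiL, ← integral_add hDL (hi1.const_mul _)]
    apply setIntegral_congr_fun measurableSet_ball
    intro ξ _
    simp only [Pi.sub_apply, hf0]
    ring
  have hb1 : |∫ ξ in ball (0 : ℂ) s, Real.log (s / ‖ξ‖) * (σ ξ * (f0 - TS.L (u k)) (φ ξ))| ≤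
      (1 / 2) ^ k * N s := by
    refine (abs_integral_le_integral_abs).trans (le_of_eq_of_le ?_ (hk1 φ σ hd hφ s hs))
    apply setIntegral_congr_fun measurableSet_ball
    intro ξ hξ
    simp only [Pi.sub_apply]
    rw [abs_mul, abs_mul, abs_of_nonneg (kernel_nonneg hξ),
      abs_of_nonneg (hd.σ_pos (ball_subset_ball hs.2.le hξ)).le]
  have hb2 := disc_L_bound TS hd (hu k) hC' hs.1 hs.2
  rw [hdec, Real.dist_eq]
  have e1 : ((∫ ξ in ball (0 : ℂ) s, Real.log (s / ‖ξ‖) * (σ ξ * (f0 - TS.L (u k)) (φ ξ))) +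
        (∫ ξ in ball (0 : ℂ) s, Real.log (s / ‖ξ‖) * (σ ξ * TS.L (u k) (φ ξ))) + c * N s) / N s -
      c = ((∫ ξ in ball (0 : ℂ) s, Real.log (s / ‖ξ‖) * (σ ξ * (f0 - TS.L (u k)) (φ ξ))) +
        (∫ ξ in ball (0 : ℂ) s, Real.log (s / ‖ξ‖) * (σ ξ * TS.L (u k) (φ ξ)))) / N s := by
    field_simp
    ring
  rw [e1, abs_div, abs_of_pos hN0, div_lt_iff₀ hN0]
  have e2 : 8 * Real.pi * C' + ε ≤ ε * N s := by
    have := mul_le_mul_of_nonneg_left hNs hε.le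
    have e3 : ε * (8 * Real.pi * C' / ε + 1) = 8 * Real.pi * C' + ε := by field_simp
    linarith
  have e4 : (1 / 2) ^ k * N s < ε / 2 * N s := mul_lt_mul_of_pos_right hk2 hN0
  refine (abs_add_le _ _).trans_lt ?_
  linarith

end Pool.Agent.H11.Nev
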